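import Mathlib

set_option autoImplicit false

namespace Pool.Agent.LW90

open Finset

/-- the primes `p` of the window `(y, y + H]` with `2 n - p` prime, `b = (y, n)` -/
def rp (H : ℕ) (b : ℕ × ℕ) : Finset ℕ :=
  (Ioc b.1 (b.1 + H)).filter (fun p => p.Prime ∧ (2 * b.2 - p).Prime)

/-- the box `(Y, Y + U] × (X, X + V]` -/
def BB (X V Y U : ℕ) : Finset (ℕ × ℕ) := Ioc Y (Y + U) ×ˢ Ioc X (X + V)

/-- pairs of such primes -/
def rq (H : ℕ) (b : ℕ × ℕ) : Finset (ℕ × ℕ) :=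
  (rp H b ×ˢ rp H b).filter (fun t => t.1 < t.2)

end Pool.Agent.LW90
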