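import Pool.Agent.LW90.Defs

set_option autoImplicit false

namespace Pool.Agent.LW90

open Finset

private theorem first_count (X V Y U H : ℕ) (hX : Y + U + H ≤ X) (hY : 2 ≤ Y) :
    H * ∑ p ∈ (Ioc (Y + H) (Y + U)).filter Nat.Prime,
        ((Ioc (2 * X - p) (2 * X - p + 2 * V)).filter Nat.Prime).card ≤
      ∑ b ∈ BB X V Y U, (rp H b).card := by
  classical
  have hT : H * ∑ p ∈ (Ioc (Y + H) (Y + U)).filter Nat.Prime,
        ((Ioc (2 * X - p) (2 * X - p + 2 * V)).filter Nat.Prime).card =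
      ((range H) ×ˢ (((Ioc (Y + H) (Y + U)).filter Nat.Prime).sigma
        fun p => (Ioc (2 * X - p) (2 * X - p + 2 * V)).filter Nat.Prime)).card := by
    rw [Finset.card_product, Finset.card_range, Finset.card_sigma]
  rw [hT, ← Finset.card_sigma]
  have hmem : ∀ j p q : ℕ, (⟨j, ⟨p, q⟩⟩ : ℕ × ((_ : ℕ) × ℕ)) ∈
      ((range H) ×ˢ (((Ioc (Y + H) (Y + U)).filter Nat.Prime).sigma
        fun p => (Ioc (2 * X - p) (2 * X - p + 2 * V)).filter Nat.Prime)) →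
      j < H ∧ (Y + H < p ∧ p ≤ Y + U) ∧ (2 * X < p + q ∧ p + q ≤ 2 * X + 2 * V) ∧
        p.Prime ∧ q.Prime ∧ p % 2 = 1 ∧ q % 2 = 1 := by
    intro j p q h
    simp only [Finset.mem_sigma, Finset.mem_product, Finset.mem_filter,
      Finset.mem_Ioc, Finset.mem_range] at h
    obtain ⟨h1, ⟨⟨h2, h3⟩, h4⟩, ⟨h5, h6⟩, h7⟩ := h
    have hp : p % 2 = 1 := h4.eq_two_or_odd.resolve_left (by omega)
    have hq : q % 2 = 1 := h7.eq_two_or_odd.resolve_left (by omega)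
    exact ⟨h1, ⟨h2, h3⟩, ⟨by omega, by omega⟩, h4, h7, hp, hq⟩
  apply Finset.card_le_card_of_injOn
    (fun z => (⟨(z.2.1 - 1 - z.1, (z.2.1 + z.2.2) / 2), z.2.1⟩ : (_ : ℕ × ℕ) × ℕ))
  · rintro ⟨j, ⟨p, q⟩⟩ hz
    obtain ⟨h1, ⟨h2, h3⟩, ⟨h4, h5⟩, h6, h7, h8, h9⟩ := hmem j p q (Finset.mem_coe.mp hz)
    rw [Finset.mem_coe]
    simp only [BB, rp, Finset.mem_sigma, Finset.mem_product, Finset.mem_filter, Finset.mem_Ioc]
    have e1 : 2 * ((p + q) / 2) - p = q := by omega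
    rw [e1]
    exact ⟨⟨⟨by omega, by omega⟩, by omega, by omega⟩, ⟨by omega, by omega⟩, h6, h7⟩
  · rintro ⟨j, ⟨p, q⟩⟩ hz ⟨j₂, ⟨p₂, q₂⟩⟩ hz₂ heq
    obtain ⟨h1, ⟨h2, h3⟩, ⟨h4, h5⟩, -, -, h8, h9⟩ := hmem j p q (Finset.mem_coe.mp hz)
    obtain ⟨k1, ⟨k2, k3⟩, ⟨k4, k5⟩, -, -, k8, k9⟩ := hmem j₂ p₂ q₂ (Finset.mem_coe.mp hz₂)
    simp only [Prod.mk.injEq, Sigma.mk.injEq, heq_eq_eq] at heq
    obtain ⟨⟨e1, e2⟩, e3⟩ := heq
    subst e3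
    have e4 : q = q₂ := by omega
    have e5 : j = j₂ := by omega
    subst e4 e5
    rfl

theorem first_lower (X V Y U H : ℕ) (Q : ℝ) (hX : Y + U + H ≤ X) (hHU : H ≤ U) (hY : 2 ≤ Y)
    (hQ : ∀ p ∈ Ioc Y (Y + U), Q ≤
      (((Ioc (2 * X - p) (2 * X - p + 2 * V)).filter Nat.Prime).card : ℝ)) (hQ0 : 0 ≤ Q) :
    (H : ℝ) * ((((Ioc (Y + H) (Y + U)).filter Nat.Prime).card : ℝ) * Q) ≤
      ∑ b ∈ BB X V Y U, ((rp H b).card : ℝ) := by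
  have h1 : (∑ b ∈ BB X V Y U, ((rp H b).card : ℝ)) =
      ((∑ b ∈ BB X V Y U, (rp H b).card : ℕ) : ℝ) := by push_cast; rfl
  rw [h1]
  have h2 := first_count X V Y U H hX hY
  have h3 : (H : ℝ) * ∑ p ∈ (Ioc (Y + H) (Y + U)).filter Nat.Prime,
        (((Ioc (2 * X - p) (2 * X - p + 2 * V)).filter Nat.Prime).card : ℝ) ≤
      ((∑ b ∈ BB X V Y U, (rp H b).card : ℕ) : ℝ) := by
    exact_mod_cast h2
  refine le_trans ?_ h3
  apply mul_le_mul_of_nonneg_left _ (Nat.cast_nonneg H)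
  rw [← nsmul_eq_mul]
  apply Finset.card_nsmul_le_sum
  intro p hp
  simp only [Finset.mem_filter, Finset.mem_Ioc] at hp
  apply hQ p
  rw [Finset.mem_Ioc]
  omega

end Pool.Agent.LW90
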