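import Pool.Agent.LW90.Defs

set_option autoImplicit false

namespace Pool.Agent.LW90

open Finset

theorem first_upper_pt (X V Y U H : ℕ) (hX : Y + U + H ≤ X) (p : ℕ)
    (hp : p ∈ (Ioc Y (Y + U + H)).filter Nat.Prime) :
    ∑ b ∈ BB X V Y U, (if b.1 < p ∧ p ≤ b.1 + H ∧ (2 * b.2 - p).Prime then (1 : ℝ) else 0) ≤
      (H : ℝ) * (((Ioc (2 * X - p) (2 * X - p + 2 * V)).filter Nat.Prime).card : ℝ) := by
  rw [mem_filter, mem_Ioc] at hp
  have h1 : ∑ b ∈ BB X V Y U, (if b.1 < p ∧ p ≤ b.1 + H ∧ (2 * b.2 - p).Prime then (1 : ℝ) else 0) =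
      (((BB X V Y U).filter
        (fun b => b.1 < p ∧ p ≤ b.1 + H ∧ (2 * b.2 - p).Prime)).card : ℝ) := by
    rw [card_filter]
    push_cast
    rfl
  have h2 : (BB X V Y U).filter (fun b => b.1 < p ∧ p ≤ b.1 + H ∧ (2 * b.2 - p).Prime) ⊆
      (Ico (p - H) p) ×ˢ ((Ioc X (X + V)).filter (fun n => (2 * n - p).Prime)) := by
    rintro ⟨y, n⟩ hb
    rw [mem_filter, BB, mem_product, mem_Ioc, mem_Ioc] at hb
    rw [mem_product, mem_Ico, mem_filter, mem_Ioc]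
    obtain ⟨⟨_, h4⟩, h5, h6, h7⟩ := hb
    simp only at h4 h5 h6 h7 ⊢
    exact ⟨⟨by omega, h5⟩, h4, h7⟩
  have h3 : ((Ioc X (X + V)).filter (fun n => (2 * n - p).Prime)).card ≤
      ((Ioc (2 * X - p) (2 * X - p + 2 * V)).filter Nat.Prime).card := by
    refine card_le_card_of_injOn (fun n => 2 * n - p) ?_ ?_
    · intro n hn
      rw [mem_coe, mem_filter, mem_Ioc] at hn
      rw [mem_coe, mem_filter, mem_Ioc]
      obtain ⟨⟨h4, h5⟩, h6⟩ := hn
      refine ⟨⟨?_, ?_⟩, h6⟩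
      · show 2 * X - p < 2 * n - p
        omega
      · show 2 * n - p ≤ 2 * X - p + 2 * V
        omega
    · intro n hn m hm hnm
      rw [mem_coe, mem_filter, mem_Ioc] at hn hm
      simp only at hnm
      omega
  have h4 := card_le_card h2
  rw [card_product, Nat.card_Ico] at h4
  have h5 : ((BB X V Y U).filter
        (fun b => b.1 < p ∧ p ≤ b.1 + H ∧ (2 * b.2 - p).Prime)).card ≤
      H * ((Ioc (2 * X - p) (2 * X - p + 2 * V)).filter Nat.Prime).card :=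
    h4.trans (Nat.mul_le_mul (by omega) h3)
  rw [h1]
  exact_mod_cast h5

/-- PROOF. `p` prime of `(Y, Y + U + H]`, `y` is one of the `H` numbers `p - H ≤ y < p`,
`q = 2 n - p` is a prime of `(2 X - p, 2 X - p + 2 V]`. -/
theorem first_upper (X V Y U H : ℕ) (Q : ℝ) (hX : Y + U + H ≤ X)
    (hQ : ∀ p ∈ Ioc Y (Y + U + H),
      (((Ioc (2 * X - p) (2 * X - p + 2 * V)).filter Nat.Prime).card : ℝ) ≤ Q) (hQ0 : 0 ≤ Q) :
    ∑ b ∈ BB X V Y U, ((rp H b).card : ℝ) ≤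
      (H : ℝ) * ((((Ioc Y (Y + U + H)).filter Nat.Prime).card : ℝ) * Q) := by
  have _ := hQ0
  have h1 : ∀ b ∈ BB X V Y U, ((rp H b).card : ℝ) =
      ∑ p ∈ (Ioc Y (Y + U + H)).filter Nat.Prime,
        (if b.1 < p ∧ p ≤ b.1 + H ∧ (2 * b.2 - p).Prime then (1 : ℝ) else 0) := by
    rintro ⟨y, n⟩ hb
    rw [BB, mem_product, mem_Ioc, mem_Ioc] at hb
    have h2 : rp H (y, n) = ((Ioc Y (Y + U + H)).filter Nat.Prime).filter
        (fun p => y < p ∧ p ≤ y + H ∧ (2 * n - p).Prime) := by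
      ext p
      simp only [rp, mem_filter, mem_Ioc]
      simp only at hb
      constructor
      · rintro ⟨⟨h3, h4⟩, h5, h6⟩
        exact ⟨⟨⟨by omega, by omega⟩, h5⟩, h3, h4, h6⟩
      · rintro ⟨⟨_, h5⟩, h3, h4, h6⟩
        exact ⟨⟨h3, h4⟩, h5, h6⟩
    rw [h2, card_filter]
    push_cast
    rfl
  rw [sum_congr rfl h1, sum_comm]
  calc ∑ p ∈ (Ioc Y (Y + U + H)).filter Nat.Prime, ∑ b ∈ BB X V Y U,
        (if b.1 < p ∧ p ≤ b.1 + H ∧ (2 * b.2 - p).Prime then (1 : ℝ) else 0)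
      ≤ ∑ p ∈ (Ioc Y (Y + U + H)).filter Nat.Prime, (H : ℝ) * Q := by
        refine sum_le_sum fun p hp => (first_upper_pt X V Y U H hX p hp).trans ?_
        exact mul_le_mul_of_nonneg_left (hQ p (mem_filter.1 hp).1) (Nat.cast_nonneg _)
    _ = (H : ℝ) * ((((Ioc Y (Y + U + H)).filter Nat.Prime).card : ℝ) * Q) := by
        rw [sum_const, nsmul_eq_mul]
        ring

end Pool.Agent.LW90
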