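import Mathlib
import Pool.Agent.PNT.Main

set_option autoImplicit false

namespace Pool.Agent.LW90

open Finset

/-- PROOF. `Pool.Agent.PNT.theta_asymp`: `|θ x - x| ≤ δ x` for `x ≥ N₀`, `δ = min (ε / 8) (1 / 8)`, so
`θ (N + L) - θ N ≥ L - δ (2 N + L) ≥ L / 2`; `θ (N + L) - θ N = ∑_{N < p ≤ N + L} log p
≤ #{p} * log (N + L)`. -/
theorem primes_lower (ε : ℝ) (hε : 0 < ε) : ∃ N₀ : ℝ, 2 ≤ N₀ ∧ ∀ N L : ℕ, N₀ ≤ N → ε * N ≤ L →
    (L : ℝ) / (2 * Real.log (N + L)) ≤ (((Ioc N (N + L)).filter Nat.Prime).card : ℝ) := by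
  set δ : ℝ := min (ε / 8) (1 / 8) with hδ
  have hδ0 : 0 < δ := lt_min (by positivity) (by norm_num)
  have hδ1 : δ ≤ ε / 8 := min_le_left _ _
  have hδ2 : δ ≤ 1 / 8 := min_le_right _ _
  have h1 := Metric.tendsto_atTop.1 Pool.Agent.PNT.theta_asymp δ hδ0
  obtain ⟨N₁, hN₁⟩ := h1
  refine ⟨max N₁ 2, le_max_right _ _, ?_⟩
  intro N L hN hL
  have hN2 : (2 : ℝ) ≤ N := (le_max_right _ _).trans hN
  have hNN : N₁ ≤ N := (le_max_left _ _).trans hN
  have hL0 : (0 : ℝ) ≤ L := by positivity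
  have key : ∀ x : ℝ, N₁ ≤ x → 0 < x → |Chebyshev.theta x - x| ≤ δ * x := by
    intro x hx hx0
    have h := hN₁ x hx
    rw [Real.dist_eq] at h
    have e : Chebyshev.theta x - x = (Chebyshev.theta x / x - 1) * x := by
      field_simp
    rw [e, abs_mul, abs_of_pos hx0]
    exact mul_le_mul_of_nonneg_right h.le hx0.le
  have k1 := abs_le.1 (key N hNN (by linarith))
  have k2 := abs_le.1 (key ((N : ℝ) + L) (by linarith) (by linarith))
  -- the difference of theta
  have hdiff : Chebyshev.theta ((N : ℝ) + L) - Chebyshev.theta N =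
      ∑ p ∈ (Ioc N (N + L)).filter Nat.Prime, Real.log p := by
    have e1 : ⌊(N : ℝ) + L⌋₊ = N + L := by
      rw [← Nat.cast_add, Nat.floor_natCast]
    have e2 : ⌊(N : ℝ)⌋₊ = N := Nat.floor_natCast N
    unfold Chebyshev.theta
    rw [e1, e2]
    have hdis : Disjoint ((Ioc 0 N).filter Nat.Prime) ((Ioc N (N + L)).filter Nat.Prime) := by
      rw [Finset.disjoint_left]
      intro p hp hq
      rw [mem_filter, mem_Ioc] at hp hq
      omega
    have hun : (Ioc 0 (N + L)).filter Nat.Prime =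
        ((Ioc 0 N).filter Nat.Prime) ∪ ((Ioc N (N + L)).filter Nat.Prime) := by
      ext p
      simp only [mem_union, mem_filter, mem_Ioc]
      constructor
      · rintro ⟨⟨h1, h2⟩, h3⟩
        by_cases h : p ≤ N
        · exact Or.inl ⟨⟨h1, h⟩, h3⟩
        · exact Or.inr ⟨⟨by omega, h2⟩, h3⟩
      · rintro (⟨⟨h1, h2⟩, h3⟩ | ⟨⟨h1, h2⟩, h3⟩)
        · exact ⟨⟨h1, by omega⟩, h3⟩
        · exact ⟨⟨by omega, h2⟩, h3⟩
    rw [hun, Finset.sum_union hdis]
    ring
  have hlogpos : 0 < Real.log ((N : ℝ) + L) := Real.log_pos (by linarith)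
  have hub : ∑ p ∈ (Ioc N (N + L)).filter Nat.Prime, Real.log p ≤
      (((Ioc N (N + L)).filter Nat.Prime).card : ℝ) * Real.log ((N : ℝ) + L) := by
    rw [← nsmul_eq_mul]
    apply Finset.sum_le_card_nsmul
    intro p hp
    rw [mem_filter, mem_Ioc] at hp
    apply Real.log_le_log
    · have : 0 < p := hp.2.pos
      exact_mod_cast this
    · have : p ≤ N + L := hp.1.2
      exact_mod_cast this
  have hlow : (L : ℝ) / 2 ≤ Chebyshev.theta ((N : ℝ) + L) - Chebyshev.theta N := by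
    have h3 : δ * N ≤ L / 8 := by
      calc δ * N ≤ ε / 8 * N := mul_le_mul_of_nonneg_right hδ1 (by linarith)
        _ = ε * N / 8 := by ring
        _ ≤ L / 8 := by linarith
    have h4 : δ * L ≤ L / 8 := by
      calc δ * L ≤ 1 / 8 * L := mul_le_mul_of_nonneg_right hδ2 hL0
        _ = L / 8 := by ring
    have h5 := k1.2
    have h6 := k2.1
    have h7 : δ * ((N : ℝ) + L) = δ * N + δ * L := by ring
    rw [h7] at h6
    linarith
  rw [hdiff] at hlow
  rw [div_le_iff₀ (by positivity)]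
  linarith

end Pool.Agent.LW90
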