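import Pool.Agent.LW90.Mom
import Pool.Agent.GW6.Main

set_option autoImplicit false

namespace Pool.Agent.LW90

open Finset Pool.Agent.GW6

theorem box_count : ∃ c C : ℝ, 0 < c ∧ 0 < C ∧ ∀ ε : ℝ, 0 < ε → ∃ X₀ : ℝ,
    ∀ X V Y U H : ℕ, X₀ ≤ X → Hyp ε X V Y U H →
    c * min 1 (H / Real.log X ^ 2) * (U * V) ≤
      (((BB X V Y U).filter (fun b => max 1 (c * (H / Real.log X ^ 2)) ≤
        ((rp H b).card : ℝ))).card : ℝ) ∧
    (((BB X V Y U).filter (fun b => (rp H b).Nonempty)).card : ℝ) ≤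
      C * min 1 (H / Real.log X ^ 2) * (U * V) := by
  classical
  obtain ⟨C₁, hC₁, h1⟩ := first_le
  obtain ⟨C₂, hC₂, h2⟩ := second_le
  obtain ⟨K, hK⟩ : ∃ K : ℝ, K = C₁ + 2 * C₂ := ⟨_, rfl⟩
  have hK0 : 0 < K := by rw [hK]; positivity
  refine ⟨min ((1 / 8) / 2) (((1 / 8) / 2) ^ 2 / (2 * K)), max 1 C₁, by positivity,
    by positivity, fun ε hε => ?_⟩
  obtain ⟨X₁, hX₁⟩ := h1 ε hε
  obtain ⟨X₂, hX₂⟩ := h2 ε hε
  obtain ⟨X₃, hX₃⟩ := first_ge ε hε
  obtain ⟨X₄, hX₄⟩ := logs ε hε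
  refine ⟨max (max X₁ X₂) (max X₃ X₄), fun X V Y U H hX h => ?_⟩
  have a1 := hX₁ X V Y U H (le_trans (le_trans (le_max_left _ _) (le_max_left _ _)) hX) h
  have a2 := hX₂ X V Y U H (le_trans (le_trans (le_max_right _ _) (le_max_left _ _)) hX) h
  have a3 := hX₃ X V Y U H (le_trans (le_trans (le_max_left _ _) (le_max_right _ _)) hX) h
  obtain ⟨hL, -⟩ := hX₄ X V Y U H (le_trans (le_trans (le_max_right _ _) (le_max_right _ _)) hX) h
  obtain ⟨μ, hμ⟩ : ∃ μ : ℝ, μ = H / Real.log X ^ 2 := ⟨_, rfl⟩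
  rw [← hμ] at a1 a2 a3 ⊢
  have hH1 : (1 : ℝ) ≤ H := by exact_mod_cast h.H1
  have hμ0 : 0 < μ := by rw [hμ]; positivity
  have hcard : ((BB X V Y U).card : ℝ) = U * V := by
    rw [BB, card_product, Nat.card_Ioc, Nat.card_Ioc, Nat.add_sub_cancel_left,
      Nat.add_sub_cancel_left]
    push_cast
    ring
  have hUV : (0 : ℝ) ≤ U * V := by positivity
  constructor
  · have b1 : 1 / 8 * μ * ((BB X V Y U).card : ℝ) ≤ ∑ b ∈ BB X V Y U, ((rp H b).card : ℝ) := by
      rw [hcard]; exact a3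
    have b2 : ∑ b ∈ BB X V Y U, ((rp H b).card : ℝ) ^ 2 ≤
        K * (μ + μ ^ 2) * ((BB X V Y U).card : ℝ) := by
      rw [hcard]
      calc ∑ b ∈ BB X V Y U, ((rp H b).card : ℝ) ^ 2
          ≤ ∑ b ∈ BB X V Y U, (((rp H b).card : ℝ) + 2 * ((rq H b).card : ℝ)) := by
            refine sum_le_sum fun b _ => ?_
            have := sq_card_le (rp H b)
            rw [rq]
            exact_mod_cast this
        _ = (∑ b ∈ BB X V Y U, ((rp H b).card : ℝ)) +
              2 * ∑ b ∈ BB X V Y U, ((rq H b).card : ℝ) := by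
            rw [sum_add_distrib, mul_sum]
        _ ≤ C₁ * μ * (U * V) + 2 * (C₂ * μ ^ 2 * (U * V)) := by gcongr
        _ ≤ K * (μ + μ ^ 2) * (U * V) := by
            rw [hK]
            have e1 : 0 ≤ C₁ * μ ^ 2 * ((U : ℝ) * V) := by positivity
            have e2 : 0 ≤ C₂ * μ * ((U : ℝ) * V) := by positivity
            nlinarith
    have b3 := smm (BB X V Y U) (fun b => (rp H b).card) (1 / 8) K μ (by norm_num) hK0 hμ0 b1 b2
    rw [hcard] at b3
    exact b3
  · have c1 : (((BB X V Y U).filter (fun b => (rp H b).Nonempty)).card : ℝ) ≤ U * V := by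
      rw [← hcard]
      exact_mod_cast card_filter_le _ _
    have c2 : (((BB X V Y U).filter (fun b => (rp H b).Nonempty)).card : ℝ) ≤
        C₁ * μ * (U * V) := by
      refine le_trans ?_ a1
      calc (((BB X V Y U).filter (fun b => (rp H b).Nonempty)).card : ℝ)
          = ∑ b ∈ (BB X V Y U).filter (fun b => (rp H b).Nonempty), (1 : ℝ) := by simp
        _ ≤ ∑ b ∈ (BB X V Y U).filter (fun b => (rp H b).Nonempty), ((rp H b).card : ℝ) := by
            refine sum_le_sum fun b hb => ?_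
            rw [mem_filter] at hb
            exact_mod_cast hb.2.card_pos
        _ ≤ _ := sum_le_sum_of_subset_of_nonneg (filter_subset _ _) fun _ _ _ =>
            Nat.cast_nonneg _
    have hm : (1 : ℝ) ≤ max 1 C₁ := le_max_left _ _
    have hm2 : C₁ ≤ max 1 C₁ := le_max_right _ _
    rcases le_total 1 μ with hμ1 | hμ1
    · rw [min_eq_left hμ1]
      nlinarith
    · rw [min_eq_right hμ1]
      calc _ ≤ C₁ * μ * (U * V) := c2
        _ ≤ _ := by gcongr

end Pool.Agent.LW90
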