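import Mathlib

set_option autoImplicit false

namespace Pool.Agent.LW90

open Finset

/-- PROOF. Copy of the proof of `Pool.Agent.GW6.many_pairs` (GW6/Main.lean, from `hcard` on), with
`a` for `1 / 400`, `B` for `BB X Y`, `B.card` for `X * Y` (`B.card = 0` is trivial). -/
theorem smm {ι : Type*} (B : Finset ι) (r : ι → ℕ) (a K μ : ℝ) (ha : 0 < a) (hK : 0 < K)
    (hμ : 0 < μ) (h1 : a * μ * B.card ≤ ∑ b ∈ B, (r b : ℝ))
    (h2 : ∑ b ∈ B, (r b : ℝ) ^ 2 ≤ K * (μ + μ ^ 2) * B.card) :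
    min (a / 2) ((a / 2) ^ 2 / (2 * K)) * min 1 μ * B.card ≤
      ((B.filter (fun b => max 1 (min (a / 2) ((a / 2) ^ 2 / (2 * K)) * μ) ≤ (r b : ℝ))).card : ℝ) := by
  classical
  rcases Nat.eq_zero_or_pos B.card with hB | hB
  · rw [hB]; simp
  set c := min (a / 2) ((a / 2) ^ 2 / (2 * K)) with hc
  have hc1 : c ≤ a / 2 := min_le_left _ _
  have hc2 : c ≤ (a / 2) ^ 2 / (2 * K) := min_le_right _ _
  have hc0 : 0 < c := lt_min (by positivity) (by positivity)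
  obtain ⟨N, hN⟩ : ∃ N : ℝ, N = B.card := ⟨_, rfl⟩
  have hN0 : 0 < N := by rw [hN]; exact_mod_cast hB
  rw [← hN] at h1 h2 ⊢
  obtain ⟨T, hTdef⟩ : ∃ T : ℝ, T = ∑ b ∈ B, (r b : ℝ) := ⟨_, rfl⟩
  obtain ⟨W, hWdef⟩ : ∃ W : ℝ, W = ∑ b ∈ B, (r b : ℝ) ^ 2 := ⟨_, rfl⟩
  rw [← hTdef] at h1
  rw [← hWdef] at h2
  obtain ⟨t, ht⟩ : ∃ t : ℝ, t = T / (2 * N) := ⟨_, rfl⟩
  have hT0 : 0 < T := lt_of_lt_of_le (by positivity) h1
  have ht0 : 0 ≤ t := by rw [ht]; positivity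
  have htT : N * t = T / 2 := by rw [ht]; field_simp
  have htμ : c * μ ≤ t := by
    have : a / 2 * μ ≤ t := by
      rw [ht, le_div_iff₀ (by positivity)]
      linarith
    refine le_trans ?_ this
    gcongr
  -- the good set
  set G := B.filter (fun b => max 1 t ≤ (r b : ℝ)) with hG
  have hsub : G ⊆ B.filter (fun b => max 1 (c * μ) ≤ (r b : ℝ)) := by
    intro b hb
    rw [hG, mem_filter] at hb
    rw [mem_filter]
    exact ⟨hb.1, le_trans (max_le_max le_rfl htμ) hb.2⟩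
  have hbad : ∑ b ∈ B.filter (fun b => ¬ max 1 t ≤ (r b : ℝ)), (r b : ℝ) ≤ T / 2 := by
    calc ∑ b ∈ B.filter (fun b => ¬ max 1 t ≤ (r b : ℝ)), (r b : ℝ)
        ≤ ∑ b ∈ B.filter (fun b => ¬ max 1 t ≤ (r b : ℝ)), t := by
          refine sum_le_sum fun b hb => ?_
          rw [mem_filter, not_le] at hb
          rcases Nat.eq_zero_or_pos (r b) with h0 | h0
          · rw [h0]; simpa using ht0
          · have h1 : (1 : ℝ) ≤ (r b : ℝ) := by exact_mod_cast h0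
            rcases lt_max_iff.mp hb.2 with h2 | h2
            · linarith
            · exact h2.le
      _ ≤ ∑ b ∈ B, t :=
          sum_le_sum_of_subset_of_nonneg (filter_subset _ _) fun _ _ _ => ht0
      _ = N * t := by rw [sum_const, nsmul_eq_mul, hN]
      _ = T / 2 := htT
  have hgood : T / 2 ≤ ∑ b ∈ G, (r b : ℝ) := by
    have := sum_filter_add_sum_filter_not B (fun b => max 1 t ≤ (r b : ℝ)) (fun b => (r b : ℝ))
    rw [← hG, ← hTdef] at this
    linarith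
  have hCS : (∑ b ∈ G, (r b : ℝ)) ^ 2 ≤ (G.card : ℝ) * W := by
    refine (sq_sum_le_card_mul_sum_sq (s := G) (f := fun b => (r b : ℝ))).trans ?_
    refine mul_le_mul_of_nonneg_left ?_ (Nat.cast_nonneg _)
    rw [hWdef]
    exact sum_le_sum_of_subset_of_nonneg (filter_subset _ _) fun _ _ _ => sq_nonneg _
  have h3 : (a / 2 * μ * N) ^ 2 ≤ (G.card : ℝ) * (K * (μ + μ ^ 2) * N) := by
    have e0 : a / 2 * μ * N ≤ T / 2 := by linarith
    have e00 : 0 ≤ a / 2 * μ * N := by positivity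
    calc (a / 2 * μ * N) ^ 2 ≤ (T / 2) ^ 2 := pow_le_pow_left₀ e00 e0 2
      _ ≤ (∑ b ∈ G, (r b : ℝ)) ^ 2 := pow_le_pow_left₀ (half_pos hT0).le hgood 2
      _ ≤ (G.card : ℝ) * W := hCS
      _ ≤ _ := mul_le_mul_of_nonneg_left h2 (Nat.cast_nonneg _)
  have h4 : (a / 2) ^ 2 * μ * N ≤ (G.card : ℝ) * (K * (1 + μ)) := by
    have e1 : (a / 2 * μ * N) ^ 2 = ((a / 2) ^ 2 * μ * N) * (μ * N) := by ring
    have e2 : (G.card : ℝ) * (K * (μ + μ ^ 2) * N) =
        ((G.card : ℝ) * (K * (1 + μ))) * (μ * N) := by ring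
    rw [e1, e2] at h3
    exact le_of_mul_le_mul_right h3 (by positivity)
  have h5 : c * min 1 μ * N ≤ (G.card : ℝ) := by
    have e3 : min 1 μ * (1 + μ) ≤ 2 * μ := by
      rcases le_total μ 1 with h | h
      · rw [min_eq_right h]; nlinarith
      · rw [min_eq_left h]; linarith
    have hm0 : 0 ≤ min 1 μ := le_min (by norm_num) hμ.le
    have hKμ : 0 < K * (1 + μ) := by positivity
    refine le_of_mul_le_mul_right ?_ hKμ
    calc c * min 1 μ * N * (K * (1 + μ))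
        ≤ (a / 2) ^ 2 / (2 * K) * min 1 μ * N * (K * (1 + μ)) := by gcongr
      _ = (a / 2) ^ 2 / 2 * (min 1 μ * (1 + μ)) * N := by field_simp
      _ ≤ (a / 2) ^ 2 / 2 * (2 * μ) * N := by gcongr
      _ = (a / 2) ^ 2 * μ * N := by ring
      _ ≤ _ := h4
  refine h5.trans ?_
  exact_mod_cast card_le_card hsub

end Pool.Agent.LW90
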