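import Pool.Agent.LW90.Sums
import Pool.Agent.LW90.Low
import Pool.Agent.LW90.Smm
import Pool.Agent.MPS11.Window
import Pool.Agent.GW6.Avg

set_option autoImplicit false

namespace Pool.Agent.LW90

open Finset Pool.Agent.GW6 Pool.Agent.MPS11

/-- the hypotheses -/
structure Hyp (ε : ℝ) (X V Y U H : ℕ) : Prop where
  U1 : ε * Y ≤ U
  U2 : U ≤ Y
  V1 : ε * X ≤ V
  V2 : V ≤ X
  sq : 2 * (X + V) ≤ Y ^ 2
  le : Y + U + H ≤ X
  H1 : 1 ≤ H
  H2 : 2 * H ≤ U

/-- bounds for the logarithms -/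
theorem logs (ε : ℝ) (hε : 0 < ε) : ∃ X₀ : ℝ, ∀ X V Y U H : ℕ, X₀ ≤ X → Hyp ε X V Y U H →
    1 ≤ Real.log X ∧ Real.log X / 4 ≤ Real.log U ∧ Real.log X / 4 ≤ Real.log V ∧
      6 ^ 12 ≤ U ∧ 6 ^ 12 ≤ V ∧ 2 ≤ Y ∧ (4 : ℝ) ≤ X := by
  obtain ⟨D, hD⟩ : ∃ D : ℝ, D = |Real.log ε| := ⟨_, rfl⟩
  refine ⟨max (Real.exp (4 * D + 4)) (max ((6 ^ 12 / ε) ^ 2 + 4) (6 ^ 12 / ε + 4)), ?_⟩
  intro X V Y U H hX h
  have hX1 : Real.exp (4 * D + 4) ≤ X := (le_max_left _ _).trans hX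
  have hX2 : (6 ^ 12 / ε) ^ 2 + 4 ≤ (X : ℝ) :=
    (le_max_left _ _).trans ((le_max_right _ _).trans hX)
  have hX3 : 6 ^ 12 / ε + 4 ≤ (X : ℝ) :=
    (le_max_right _ _).trans ((le_max_right _ _).trans hX)
  have hX0 : (0 : ℝ) < X := lt_of_lt_of_le (Real.exp_pos _) hX1
  have hD0 : 0 ≤ D := by rw [hD]; exact abs_nonneg _
  have hDε : -D ≤ Real.log ε := by rw [hD]; exact neg_abs_le _
  have hL : 4 * D + 4 ≤ Real.log X := (Real.le_log_iff_exp_le hX0).2 hX1
  have h612 : (0 : ℝ) < 6 ^ 12 / ε := by positivity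
  have hsq : (X : ℝ) ≤ (Y : ℝ) ^ 2 := by
    have h1 := h.sq
    have : X ≤ Y ^ 2 := by omega
    exact_mod_cast this
  have hY0 : (0 : ℝ) < Y := by
    rcases Nat.eq_zero_or_pos Y with h0 | h0
    · rw [h0] at hsq
      norm_num at hsq
      have : (X : ℝ) = 0 := by exact_mod_cast hsq
      linarith
    · exact_mod_cast h0
  have hY6 : 6 ^ 12 / ε ≤ (Y : ℝ) := by
    nlinarith
  have hY2 : (2 : ℝ) ≤ Y := by nlinarith
  have hlogY : Real.log X ≤ 2 * Real.log Y := by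
    calc Real.log X ≤ Real.log ((Y : ℝ) ^ 2) := Real.log_le_log hX0 hsq
      _ = 2 * Real.log Y := by rw [Real.log_pow]; norm_num
  have hU6 : (6 ^ 12 : ℝ) ≤ U := by
    have h1 : ε * (6 ^ 12 / ε) ≤ ε * Y := by gcongr
    have h2 : ε * (6 ^ 12 / ε) = 6 ^ 12 := by field_simp
    linarith [h.U1]
  have hV6 : (6 ^ 12 : ℝ) ≤ V := by
    have h1 : ε * (6 ^ 12 / ε) ≤ ε * X := by
      gcongr
      linarith
    have h2 : ε * (6 ^ 12 / ε) = 6 ^ 12 := by field_simp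
    linarith [h.V1]
  have hlU : Real.log ε + Real.log Y ≤ Real.log U := by
    rw [← Real.log_mul hε.ne' hY0.ne']
    exact Real.log_le_log (by positivity) h.U1
  have hlV : Real.log ε + Real.log X ≤ Real.log V := by
    rw [← Real.log_mul hε.ne' hX0.ne']
    exact Real.log_le_log (by positivity) h.V1
  refine ⟨by linarith, by linarith, by linarith, by exact_mod_cast hU6, by exact_mod_cast hV6,
    by exact_mod_cast hY2, by linarith⟩

/-- upper bound for the number of primes in a window of length at most `2 M` -/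
theorem primes_le : ∃ C : ℝ, 0 < C ∧ ∀ M N K : ℕ, 6 ^ 12 ≤ M → M ≤ N → K ≤ 2 * M →
    (((Ioc N (N + K)).filter Nat.Prime).card : ℝ) ≤ C * (M / Real.log M) := by
  obtain ⟨C, hC, h⟩ := window_primes
  refine ⟨C, hC, fun M N K hM hMN hK => ?_⟩
  refine le_trans ?_ (h M (N - M) hM)
  have : ((Ioc N (N + K)).filter Nat.Prime).card ≤
      ((Ioc (N - M + M) (N - M + 3 * M)).filter Nat.Prime).card := by
    apply card_le_card
    intro p hp
    simp only [mem_filter, mem_Ioc] at hp ⊢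
    exact ⟨by omega, hp.2⟩
  exact_mod_cast this

theorem pairs_le' : ∃ C : ℝ, 0 < C ∧ ∀ M N K h : ℕ, 6 ^ 12 ≤ M → M ≤ N → K ≤ 2 * M → 1 ≤ h →
    (((Ioc N (N + K)).filter (fun q => q.Prime ∧ (q + h).Prime)).card : ℝ) ≤
      C * (M / Real.log M ^ 2) * fh h := by
  obtain ⟨C, hC, h'⟩ := window_pairs
  refine ⟨C, hC, fun M N K h hM hMN hK hh => ?_⟩
  refine le_trans ?_ (h' M (N - M) h hM hh)
  have : ((Ioc N (N + K)).filter (fun q => q.Prime ∧ (q + h).Prime)).card ≤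
      ((Ioc (N - M + M) (N - M + 3 * M)).filter (fun q => q.Prime ∧ (q + h).Prime)).card := by
    apply card_le_card
    intro p hp
    simp only [mem_filter, mem_Ioc] at hp ⊢
    exact ⟨by omega, hp.2⟩
  exact_mod_cast this

theorem div_log_le {M : ℕ} {L : ℝ} (hL : 1 ≤ L) (h : L / 4 ≤ Real.log M) :
    (M : ℝ) / Real.log M ≤ 4 * (M / L) := by
  have h0 : 0 < L / 4 := by linarith
  calc (M : ℝ) / Real.log M ≤ M / (L / 4) := by gcongr
    _ = 4 * (M / L) := by field_simp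

theorem div_log_sq_le {M : ℕ} {L : ℝ} (hL : 1 ≤ L) (h : L / 4 ≤ Real.log M) :
    (M : ℝ) / Real.log M ^ 2 ≤ 16 * (M / L ^ 2) := by
  have h0 : 0 < L / 4 := by linarith
  calc (M : ℝ) / Real.log M ^ 2 ≤ M / (L / 4) ^ 2 := by gcongr
    _ = 16 * (M / L ^ 2) := by field_simp; norm_num

/-- the first moment, upper bound -/
theorem first_le : ∃ C : ℝ, 0 < C ∧ ∀ ε : ℝ, 0 < ε → ∃ X₀ : ℝ, ∀ X V Y U H : ℕ, X₀ ≤ X →
    Hyp ε X V Y U H →
    ∑ b ∈ BB X V Y U, ((rp H b).card : ℝ) ≤ C * (H / Real.log X ^ 2) * (U * V) := by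
  obtain ⟨C, hC, hp⟩ := primes_le
  refine ⟨16 * C ^ 2, by positivity, fun ε hε => ?_⟩
  obtain ⟨X₀, hX₀⟩ := logs ε hε
  refine ⟨X₀, fun X V Y U H hX h => ?_⟩
  obtain ⟨hL, hU, hV, hU6, hV6, hY2, hX4⟩ := hX₀ X V Y U H hX h
  obtain ⟨L, hLd⟩ : ∃ L : ℝ, L = Real.log X := ⟨_, rfl⟩
  rw [← hLd] at hL hU hV ⊢
  have hle := h.le
  have hV2 := h.V2
  have hU2 := h.U2
  have hH2 := h.H2
  have hL0 : 0 < L := by linarith
  have h1 := first_upper X V Y U H (C * (4 * (V / L))) hle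
    (fun p hp1 => by
      rw [mem_Ioc] at hp1
      exact (hp V (2 * X - p) (2 * V) hV6 (by omega) le_rfl).trans (by
        gcongr
        exact div_log_le hL hV)) (by positivity)
  have h2 : (((Ioc Y (Y + U + H)).filter Nat.Prime).card : ℝ) ≤ C * (4 * (U / L)) := by
    rw [add_assoc]
    exact (hp U Y (U + H) hU6 hU2 (by omega)).trans (by
      gcongr
      exact div_log_le hL hU)
  calc ∑ b ∈ BB X V Y U, ((rp H b).card : ℝ) ≤ _ := h1
    _ ≤ (H : ℝ) * ((C * (4 * (U / L))) * (C * (4 * (V / L)))) := by gcongr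
    _ = 16 * C ^ 2 * (H / L ^ 2) * (U * V) := by field_simp; ring

/-- the pairs, upper bound -/
theorem second_le : ∃ C : ℝ, 0 < C ∧ ∀ ε : ℝ, 0 < ε → ∃ X₀ : ℝ, ∀ X V Y U H : ℕ, X₀ ≤ X →
    Hyp ε X V Y U H →
    ∑ b ∈ BB X V Y U, ((rq H b).card : ℝ) ≤ C * (H / Real.log X ^ 2) ^ 2 * (U * V) := by
  obtain ⟨C, hC, hp⟩ := pairs_le'
  refine ⟨256 * C ^ 2 * Real.exp 4, by positivity, fun ε hε => ?_⟩
  obtain ⟨X₀, hX₀⟩ := logs ε hε
  refine ⟨X₀, fun X V Y U H hX h => ?_⟩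
  obtain ⟨hL, hU, hV, hU6, hV6, hY2, hX4⟩ := hX₀ X V Y U H hX h
  obtain ⟨L, hLd⟩ : ∃ L : ℝ, L = Real.log X := ⟨_, rfl⟩
  rw [← hLd] at hL hU hV ⊢
  have hle := h.le
  have hV2 := h.V2
  have hU2 := h.U2
  have hH2 := h.H2
  have hL0 : 0 < L := by linarith
  have hf0 : ∀ h : ℕ, 0 ≤ fh h := fun h => le_trans zero_le_one (fh_ge_one h)
  have h1 := second_upper X V Y U H (fun h => C * (16 * (V / L ^ 2)) * fh h) hle
    (fun k hk p hp1 => by
      rw [mem_Ioc] at hp1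
      rw [mem_Icc] at hk
      refine (hp V (2 * X - p) (2 * V) k hV6 (by omega) le_rfl hk.1).trans ?_
      have := div_log_sq_le hL hV
      have := hf0 k
      gcongr) (fun k => by
        have := hf0 k
        positivity)
  have h2 : ∀ k ∈ Icc 1 H, (((Ioc Y (Y + U + H)).filter (fun p => p.Prime ∧
      (p + k).Prime)).card : ℝ) ≤ C * (16 * (U / L ^ 2)) * fh k := by
    intro k hk
    rw [mem_Icc] at hk
    rw [add_assoc]
    refine (hp U Y (U + H) k hU6 hU2 (by omega) hk.1).trans ?_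
    have := div_log_sq_le hL hU
    have := hf0 k
    gcongr
  calc ∑ b ∈ BB X V Y U, ((rq H b).card : ℝ) ≤ _ := h1
    _ ≤ (H : ℝ) * ∑ k ∈ Icc 1 H, (256 * C ^ 2 * (U * V) / L ^ 4) * (fh k) ^ 2 := by
        refine mul_le_mul_of_nonneg_left (sum_le_sum fun k hk => ?_) (Nat.cast_nonneg _)
        have g0 := hf0 k
        have g1 := h2 k hk
        have g2 : (0 : ℝ) ≤ C * (16 * (V / L ^ 2)) * fh k := by positivity
        calc (((Ioc Y (Y + U + H)).filter (fun p => p.Prime ∧ (p + k).Prime)).card : ℝ) *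
              (C * (16 * (V / L ^ 2)) * fh k)
            ≤ (C * (16 * (U / L ^ 2)) * fh k) * (C * (16 * (V / L ^ 2)) * fh k) :=
              mul_le_mul_of_nonneg_right g1 g2
          _ = _ := by field_simp; ring
    _ = (H : ℝ) * ((256 * C ^ 2 * (U * V) / L ^ 4) * ∑ k ∈ Icc 1 H, (fh k) ^ 2) := by
        rw [← mul_sum]
    _ ≤ (H : ℝ) * ((256 * C ^ 2 * (U * V) / L ^ 4) * (Real.exp 4 * H)) := by
        have := sum_fh_sq_le H
        gcongr
    _ = _ := by field_simp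

/-- the first moment, lower bound -/
theorem first_ge (ε : ℝ) (hε : 0 < ε) : ∃ X₀ : ℝ, ∀ X V Y U H : ℕ, X₀ ≤ X →
    Hyp ε X V Y U H →
    1 / 8 * (H / Real.log X ^ 2) * (U * V) ≤ ∑ b ∈ BB X V Y U, ((rp H b).card : ℝ) := by
  obtain ⟨X₁, hX₁⟩ := logs ε hε
  obtain ⟨N₁, hN₁, hl1⟩ := primes_lower (ε / 4) (by positivity)
  obtain ⟨N₂, hN₂, hl2⟩ := primes_lower ε hε
  refine ⟨max X₁ (max (N₁ ^ 2) N₂), fun X V Y U H hX h => ?_⟩
  obtain ⟨hL, hU, hV, hU6, hV6, hY2, hX4⟩ := hX₁ X V Y U H ((le_max_left _ _).trans hX) h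
  have hXN1 : N₁ ^ 2 ≤ X := (le_max_left _ _).trans ((le_max_right _ _).trans hX)
  have hXN2 : N₂ ≤ X := (le_max_right _ _).trans ((le_max_right _ _).trans hX)
  obtain ⟨L, hLd⟩ : ∃ L : ℝ, L = Real.log X := ⟨_, rfl⟩
  rw [← hLd] at hL hU hV ⊢
  have hle := h.le
  have hV2 := h.V2
  have hU2 := h.U2
  have hH2 := h.H2
  have hL0 : 0 < L := by linarith
  have hX0 : (0 : ℝ) < X := by linarith
  have hYN : N₁ ≤ Y := by
    have h1 := h.sq
    have h2 : X ≤ Y ^ 2 := by omega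
    have h3 : (X : ℝ) ≤ (Y : ℝ) ^ 2 := by exact_mod_cast h2
    nlinarith [Nat.cast_nonneg (α := ℝ) Y]
  have hleR : (Y : ℝ) + U + H ≤ X := by exact_mod_cast hle
  have hH2R : 2 * (H : ℝ) ≤ U := by exact_mod_cast hH2
  have hU2R : (U : ℝ) ≤ Y := by exact_mod_cast hU2
  have hV2R : (V : ℝ) ≤ X := by exact_mod_cast hV2
  have hH0 : (0 : ℝ) ≤ H := Nat.cast_nonneg _
  have hY0 : (2 : ℝ) ≤ Y := by exact_mod_cast hY2
  have hU1 := h.U1
  have hV1 := h.V1
  have h1 := first_lower X V Y U H (V / (2 * L)) hle (by omega) hY2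
    (fun p hp1 => by
      rw [mem_Ioc] at hp1
      have hpX : p ≤ X := by omega
      have hpR : (p : ℝ) ≤ X := by exact_mod_cast hpX
      have hcast : ((2 * X - p : ℕ) : ℝ) = 2 * X - p := by
        rw [Nat.cast_sub (by omega)]
        push_cast
        ring
      have hp0 : (0 : ℝ) ≤ p := Nat.cast_nonneg _
      have h2 := hl2 (2 * X - p) (2 * V) (by rw [hcast]; linarith)
        (by rw [hcast]; push_cast; nlinarith)
      refine le_trans ?_ h2
      have h3 : Real.log (((2 * X - p : ℕ) : ℝ) + ((2 * V : ℕ) : ℝ)) ≤ 2 * L := by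
        rw [hLd, hcast]
        calc Real.log (2 * X - p + ((2 * V : ℕ) : ℝ)) ≤ Real.log ((X : ℝ) ^ 2) := by
              apply Real.log_le_log
              · push_cast
                nlinarith [Nat.cast_nonneg (α := ℝ) V]
              · push_cast
                nlinarith
          _ = 2 * Real.log X := by rw [Real.log_pow]; norm_num
      have h4 : 0 < Real.log (((2 * X - p : ℕ) : ℝ) + ((2 * V : ℕ) : ℝ)) := by
        apply Real.log_pos
        rw [hcast]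
        push_cast
        nlinarith [Nat.cast_nonneg (α := ℝ) V]
      push_cast at h3 h4 ⊢
      rw [div_le_div_iff₀ (by positivity) (by positivity)]
      nlinarith [Nat.cast_nonneg (α := ℝ) V]) (by positivity)
  have h2 : (U : ℝ) / (4 * L) ≤ (((Ioc (Y + H) (Y + U)).filter Nat.Prime).card : ℝ) := by
    have h3 := hl1 (Y + H) (U - H) (by push_cast; linarith) (by
      rw [Nat.cast_sub (by omega)]
      push_cast
      nlinarith)
    have e : Y + H + (U - H) = Y + U := by omega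
    rw [e] at h3
    refine le_trans ?_ h3
    have e2 : ((Y + H : ℕ) : ℝ) + ((U - H : ℕ) : ℝ) = Y + U := by
      rw [Nat.cast_sub (by omega)]
      push_cast
      ring
    rw [e2]
    have h4 : Real.log ((Y : ℝ) + U) ≤ L := by
      rw [hLd]
      exact Real.log_le_log (by nlinarith [Nat.cast_nonneg (α := ℝ) U]) (by linarith)
    have h5 : 0 < Real.log ((Y : ℝ) + U) := Real.log_pos (by
      nlinarith [Nat.cast_nonneg (α := ℝ) U])
    rw [Nat.cast_sub (by omega), div_le_div_iff₀ (by positivity) (by positivity)]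
    have h6 : (U : ℝ) ≤ 2 * (U - H) := by linarith
    have h7 : (0 : ℝ) ≤ U := Nat.cast_nonneg _
    have h8 : (0 : ℝ) ≤ 2 * (U - H) := by linarith
    calc (U : ℝ) * (2 * Real.log (Y + U)) ≤ (2 * (U - H)) * (2 * L) := by gcongr
      _ = _ := by ring
  refine le_trans ?_ h1
  calc 1 / 8 * (H / L ^ 2) * ((U : ℝ) * V) = H * ((U / (4 * L)) * (V / (2 * L))) := by
        field_simp; ring
    _ ≤ _ := by gcongr

end Pool.Agent.LW90
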