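import Pool.Agent.LW90.Defs

set_option autoImplicit false

namespace Pool.Agent.LW90

open Finset

private theorem second_count (X V Y U H : ℕ) (hX : Y + U + H ≤ X) :
    ∑ b ∈ BB X V Y U, (rq H b).card ≤
      H * ∑ h ∈ Icc 1 H, ∑ p ∈ ((Ioc Y (Y + U + H)).filter
        (fun p => p.Prime ∧ (p + h).Prime)).filter (fun p => p + h ≤ Y + U + H),
        ((Ioc (2 * X - (p + h)) (2 * X - (p + h) + 2 * V)).filter
          (fun q => q.Prime ∧ (q + h).Prime)).card := by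
  classical
  rw [← Finset.card_sigma]
  have hT : H * ∑ h ∈ Icc 1 H, ∑ p ∈ ((Ioc Y (Y + U + H)).filter
        (fun p => p.Prime ∧ (p + h).Prime)).filter (fun p => p + h ≤ Y + U + H),
        ((Ioc (2 * X - (p + h)) (2 * X - (p + h) + 2 * V)).filter
          (fun q => q.Prime ∧ (q + h).Prime)).card =
      ((range H) ×ˢ ((Icc 1 H).sigma fun h => (((Ioc Y (Y + U + H)).filter
        (fun p => p.Prime ∧ (p + h).Prime)).filter (fun p => p + h ≤ Y + U + H)).sigma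
        fun p => (Ioc (2 * X - (p + h)) (2 * X - (p + h) + 2 * V)).filter
          (fun q => q.Prime ∧ (q + h).Prime))).card := by
    rw [Finset.card_product, Finset.card_range, Finset.card_sigma]
    simp only [Finset.card_sigma]
  rw [hT]
  have hmem : ∀ y n p p' : ℕ, (⟨(y, n), (p, p')⟩ : (_ : ℕ × ℕ) × (ℕ × ℕ)) ∈
      (BB X V Y U).sigma (rq H) →
      (Y < y ∧ y ≤ Y + U) ∧ (X < n ∧ n ≤ X + V) ∧ (y < p ∧ p < p' ∧ p' ≤ y + H) ∧
        p.Prime ∧ p'.Prime ∧ (2 * n - p).Prime ∧ (2 * n - p').Prime := by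
    intro y n p p' h
    simp only [BB, rq, rp, Finset.mem_sigma, Finset.mem_product, Finset.mem_filter,
      Finset.mem_Ioc] at h
    obtain ⟨⟨⟨h1, h2⟩, h3, h4⟩, ⟨⟨⟨h5, h6⟩, h7, h8⟩, ⟨h9, h10⟩, h11, h12⟩, h13⟩ := h
    exact ⟨⟨h1, h2⟩, ⟨h3, h4⟩, ⟨h5, h13, h10⟩, h7, h11, h8, h12⟩
  apply Finset.card_le_card_of_injOn
    (fun z => (z.2.1 - 1 - z.1.1, ⟨z.2.2 - z.2.1, ⟨z.2.1, 2 * z.1.2 - z.2.2⟩⟩))
  · rintro ⟨⟨y, n⟩, ⟨p, p'⟩⟩ hz
    obtain ⟨⟨h1, h2⟩, ⟨h3, h4⟩, ⟨h5, h6, h7⟩, h8, h9, h10, h11⟩ :=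
      hmem y n p p' (Finset.mem_coe.mp hz)
    rw [Finset.mem_coe]
    simp only [Finset.mem_product, Finset.mem_range, Finset.mem_sigma, Finset.mem_filter,
      Finset.mem_Ioc, Finset.mem_Icc]
    have e1 : p + (p' - p) = p' := by omega
    have e2 : 2 * n - p' + (p' - p) = 2 * n - p := by omega
    rw [e1, e2]
    refine ⟨by omega, ⟨by omega, by omega⟩, ⟨⟨⟨by omega, by omega⟩, h8, h9⟩, by omega⟩,
      ⟨by omega, by omega⟩, h11, h10⟩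
  · rintro ⟨⟨y, n⟩, ⟨p, p'⟩⟩ hz ⟨⟨y₂, n₂⟩, ⟨p₂, p₂'⟩⟩ hz₂ heq
    obtain ⟨⟨h1, h2⟩, ⟨h3, h4⟩, ⟨h5, h6, h7⟩, -⟩ := hmem y n p p' (Finset.mem_coe.mp hz)
    obtain ⟨⟨k1, k2⟩, ⟨k3, k4⟩, ⟨k5, k6, k7⟩, -⟩ := hmem y₂ n₂ p₂ p₂' (Finset.mem_coe.mp hz₂)
    simp only [Prod.mk.injEq, Sigma.mk.injEq, heq_eq_eq] at heq
    obtain ⟨e1, e2, e3, e4⟩ := heq
    subst e3
    have e5 : p' = p₂' := by omega
    subst e5
    have e6 : n = n₂ := by omega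
    have e7 : y = y₂ := by omega
    subst e6 e7
    rfl

theorem second_upper (X V Y U H : ℕ) (Q : ℕ → ℝ) (hX : Y + U + H ≤ X)
    (hQ : ∀ h ∈ Icc 1 H, ∀ p ∈ Ioc Y (Y + U + H),
      (((Ioc (2 * X - p) (2 * X - p + 2 * V)).filter (fun q => q.Prime ∧ (q + h).Prime)).card : ℝ)
        ≤ Q h) (hQ0 : ∀ h, 0 ≤ Q h) :
    ∑ b ∈ BB X V Y U, ((rq H b).card : ℝ) ≤
      (H : ℝ) * ∑ h ∈ Icc 1 H,
        (((Ioc Y (Y + U + H)).filter (fun p => p.Prime ∧ (p + h).Prime)).card : ℝ) * Q h := by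
  have h1 : (∑ b ∈ BB X V Y U, ((rq H b).card : ℝ)) =
      ((∑ b ∈ BB X V Y U, (rq H b).card : ℕ) : ℝ) := by push_cast; rfl
  rw [h1]
  have h2 := second_count X V Y U H hX
  have h3 : ((∑ b ∈ BB X V Y U, (rq H b).card : ℕ) : ℝ) ≤ (H : ℝ) * ∑ h ∈ Icc 1 H,
      ∑ p ∈ ((Ioc Y (Y + U + H)).filter
        (fun p => p.Prime ∧ (p + h).Prime)).filter (fun p => p + h ≤ Y + U + H),
        (((Ioc (2 * X - (p + h)) (2 * X - (p + h) + 2 * V)).filter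
          (fun q => q.Prime ∧ (q + h).Prime)).card : ℝ) := by
    exact_mod_cast h2
  refine h3.trans ?_
  apply mul_le_mul_of_nonneg_left _ (Nat.cast_nonneg H)
  apply Finset.sum_le_sum
  intro h hh
  refine (Finset.sum_le_card_nsmul _ _ (Q h) ?_).trans ?_
  · intro p hp
    simp only [Finset.mem_filter, Finset.mem_Ioc] at hp
    apply hQ h hh (p + h)
    rw [Finset.mem_Ioc]
    omega
  · rw [nsmul_eq_mul]
    apply mul_le_mul_of_nonneg_right _ (hQ0 h)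
    exact_mod_cast Finset.card_le_card (Finset.filter_subset _ _)

end Pool.Agent.LW90
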